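import Mathlib
import Pool.Agent.W747.MB.Defs

/-!
MB-SLC: slabs at level `j`.
-/

set_option autoImplicit false
open Metric MeasureTheory Set

namespace Pool.Agent.W816.MB

open Pool.Agent.W747.MB

/-- comparison of the two quotients -/
lemma quot_diff (x x0 l l0 a a0 : ℂ) (ha : 86 / 100 ≤ ‖a‖) (ha0 : 86 / 100 ≤ ‖a0‖)
    (ha0' : ‖a0‖ ≤ 113 / 100) (haa : ‖a - a0‖ ≤ 6 / 100) (hx : ‖x - x0‖ ≤ ‖x0‖ / 50)
    (hl : ‖l - l0‖ ≤ ‖l0‖ / 50) :
    ‖x * l / a - x0 * l0 / a0‖ ≤ 13 / 100 * ‖x0 * l0 / a0‖ := by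
  have hane : a ≠ 0 := by
    intro h
    rw [h, norm_zero] at ha
    norm_num at ha
  have ha0ne : a0 ≠ 0 := by
    intro h
    rw [h, norm_zero] at ha0
    norm_num at ha0
  have e1 : x * l / a - x0 * l0 / a0 =
      ((x - x0) * l * a0 + x0 * (l - l0) * a0 - x0 * l0 * (a - a0)) / (a * a0) := by
    field_simp
    ring
  rw [e1, norm_div, norm_div, norm_mul a a0, norm_mul x0 l0]
  have hA : 0 < ‖a‖ := by positivity
  have hA0 : 0 < ‖a0‖ := by positivity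
  have hl2 : ‖l‖ ≤ 51 / 50 * ‖l0‖ := by
    have : ‖l‖ ≤ ‖l - l0‖ + ‖l0‖ := by
      have := norm_add_le (l - l0) l0
      rwa [sub_add_cancel] at this
    linarith
  have hnum : ‖(x - x0) * l * a0 + x0 * (l - l0) * a0 - x0 * l0 * (a - a0)‖ ≤
      ‖x0‖ / 50 * (51 / 50 * ‖l0‖) * ‖a0‖ + ‖x0‖ * (‖l0‖ / 50) * ‖a0‖ +
        ‖x0‖ * ‖l0‖ * (6 / 100) := by
    refine (norm_sub_le _ _).trans (add_le_add ((norm_add_le _ _).trans (add_le_add ?_ ?_)) ?_)
    · rw [norm_mul, norm_mul]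
      gcongr
    · rw [norm_mul, norm_mul]
      gcongr
    · rw [norm_mul, norm_mul]
      gcongr
  rw [div_le_iff₀ (by positivity)]
  have e2 : 13 / 100 * (‖x0‖ * ‖l0‖ / ‖a0‖) * (‖a‖ * ‖a0‖) = 13 / 100 * (‖x0‖ * ‖l0‖) * ‖a‖ := by
    field_simp
  rw [e2]
  refine hnum.trans ?_
  have e3 : ‖x0‖ / 50 * (51 / 50 * ‖l0‖) * ‖a0‖ + ‖x0‖ * (‖l0‖ / 50) * ‖a0‖ +
        ‖x0‖ * ‖l0‖ * (6 / 100) = (‖x0‖ * ‖l0‖) * ((51 / 2500 + 1 / 50) * ‖a0‖ + 6 / 100) := by
    ring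
  rw [e3]
  have e4 : 13 / 100 * (‖x0‖ * ‖l0‖) * ‖a‖ = (‖x0‖ * ‖l0‖) * (13 / 100 * ‖a‖) := by ring
  rw [e4]
  apply mul_le_mul_of_nonneg_left _ (by positivity)
  linarith

theorem main (hD : P_DER) (hV : P_VAR) (hS : P_SLB) : P_SLC := by
  intro n hn c₀ b j hG hs1 hs2 hb hA1 hA2 α β hαβ
  have hn2 : 2 ≤ n := le_trans (by norm_num) hn
  have hnR : (10:ℝ) ^ 6 ≤ n := by exact_mod_cast hn
  have hn0 : (0:ℝ) < n := by linarith
  have hnC : ‖(n:ℂ)‖ = n := Complex.norm_natCast n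
  set l := ‖L n c₀ j‖ with hl
  have hl0 : 0 < l := norm_pos_iff.2 hG.L0
  set s := ‖X n c₀ j‖ with hs
  have hs0 : 0 < s := by linarith
  have hc₀ : c₀ ∈ DD n c₀ j := by
    unfold DD
    exact mem_closedBall_self (by positivity)
  have hAd : ∀ c c', A n c j - A n c' j = (X n c j - X n c' j) / n := by
    intro c c'
    unfold A
    ring
  have hA : ∀ c ∈ DD n c₀ j, 86 / 100 ≤ ‖A n c j‖ ∧ ‖A n c j‖ ≤ 113 / 100 := by
    intro c hc
    have h1 := (hV n hn2 c₀ j hG c hc).2.1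
    have h2 := (hV n hn2 c₀ j hG b hb).2.1
    have h3 : ‖A n c j - A n b j‖ ≤ 12 / 100 := by
      rw [hAd, norm_div, hnC, div_le_iff₀ hn0]
      have h4 : X n c j - X n b j = (X n c j - X n c₀ j) - (X n b j - X n c₀ j) := by ring
      rw [h4]
      refine (norm_sub_le _ _).trans ?_
      linarith
    have h5 : ‖A n b j‖ ≤ ‖A n c j‖ + ‖A n c j - A n b j‖ := by
      have := norm_sub_le (A n c j) (A n c j - A n b j)
      rwa [sub_sub_cancel] at this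
    have h6 : ‖A n c j‖ ≤ ‖A n c j - A n b j‖ + ‖A n b j‖ := by
      have := norm_add_le (A n c j - A n b j) (A n b j)
      rwa [sub_add_cancel] at this
    constructor <;> linarith
  have hAn : ∀ c ∈ DD n c₀ j, ∀ i < j + 1, A n c i ≠ 0 := by
    intro c hc i hi
    rcases Nat.lt_succ_iff_lt_or_eq.1 hi with h | h
    · exact (hG.nz c hc).2 i h
    · rw [h]
      intro h0
      have := (hA c hc).1
      rw [h0, norm_zero] at this
      norm_num at this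
  -- the terms
  set E0 := X n c₀ j * L n c₀ j / A n c₀ j with hE0
  have hE0n : 8849 * l ≤ ‖E0‖ := by
    rw [hE0, norm_div, norm_mul, le_div_iff₀ (by linarith [(hA c₀ hc₀).1])]
    have h1 := (hA c₀ hc₀).2
    calc 8849 * l * ‖A n c₀ j‖ ≤ 8849 * l * (113 / 100) :=
          mul_le_mul_of_nonneg_left h1 (by positivity)
      _ ≤ 10 ^ 4 * l := by nlinarith
      _ ≤ s * l := mul_le_mul_of_nonneg_right hs1 hl0.le
  have hE0n' : s * l ≤ 113 / 100 * ‖E0‖ := by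
    have h1 := (hA c₀ hc₀).2
    have h2 := (hA c₀ hc₀).1
    have h3 : ‖E0‖ * ‖A n c₀ j‖ = s * l := by
      rw [hE0, norm_div, norm_mul]
      have : ‖A n c₀ j‖ ≠ 0 := by linarith
      rw [div_mul_cancel₀ _ this]
    rw [← h3, mul_comm]
    exact mul_le_mul_of_nonneg_right h1 (norm_nonneg _)
  have hbig : ∀ c ∈ DD n c₀ j, ‖((n:ℂ) - 1) / c‖ ≤ ‖L n c j‖ := by
    intro c hc
    rw [norm_div]
    have h1 : ‖(n:ℂ) - 1‖ = (n:ℝ) - 1 := by
      have : (n:ℂ) - 1 = (((n:ℝ) - 1 : ℝ) : ℂ) := by push_cast; rfl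
      rw [this, Complex.norm_real, Real.norm_of_nonneg (by linarith)]
    rw [h1]
    exact hG.big c hc
  have hL0 : ‖E0‖ ≤ ‖L n c₀ (j + 1)‖ + l := by
    have h1 : L n c₀ (j + 1) = ((n:ℂ) - 1) / c₀ + E0 := rfl
    have h2 : E0 = L n c₀ (j + 1) - ((n:ℂ) - 1) / c₀ := by rw [h1]; ring
    rw [h2]
    exact (norm_sub_le _ _).trans (add_le_add le_rfl (hbig c₀ hc₀))
  have hL0' : 88 / 100 * (s * l) ≤ ‖L n c₀ (j + 1)‖ := by linarith
  have hkey : ∀ c ∈ DD n c₀ j, ‖L n c (j + 1) - L n c₀ (j + 1)‖ ≤ ‖L n c₀ (j + 1)‖ / 2 := by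
    intro c hc
    have h1 : L n c (j + 1) - L n c₀ (j + 1) = (((n:ℂ) - 1) / c - ((n:ℂ) - 1) / c₀) +
        (X n c j * L n c j / A n c j - E0) := by
      show ((n:ℂ) - 1) / c + X n c j * L n c j / A n c j - (((n:ℂ) - 1) / c₀ + E0) = _
      ring
    obtain ⟨h2, h3, -⟩ := hV n hn2 c₀ j hG c hc
    have h4 : ‖A n c j - A n c₀ j‖ ≤ 6 / 100 := by
      rw [hAd, norm_div, hnC, div_le_iff₀ hn0]
      linarith
    have h5 := quot_diff (X n c j) (X n c₀ j) (L n c j) (L n c₀ j) (A n c j) (A n c₀ j)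
      (hA c hc).1 (hA c₀ hc₀).1 (hA c₀ hc₀).2 h4 h3 h2
    have h6 : ‖L n c j‖ ≤ 51 / 50 * l := by
      have : ‖L n c j‖ ≤ ‖L n c j - L n c₀ j‖ + l := by
        have := norm_add_le (L n c j - L n c₀ j) (L n c₀ j)
        rwa [sub_add_cancel] at this
      linarith
    have h7 : ‖((n:ℂ) - 1) / c - ((n:ℂ) - 1) / c₀‖ ≤ 51 / 50 * l + l :=
      (norm_sub_le _ _).trans (add_le_add ((hbig c hc).trans h6) (hbig c₀ hc₀))
    rw [h1]
    refine (norm_add_le _ _).trans ?_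
    linarith
  have hvol := hS (fun c => X n c (j + 1)) (fun c => L n c (j + 1)) c₀ (L n c₀ (j + 1))
    (1 / (100 * l)) α β (by positivity)
    (by
      intro h
      rw [h, norm_zero] at hL0'
      have : 0 < s * l := by positivity
      linarith) hαβ
    (by
      intro c hc
      have hc' : c ∈ DD n c₀ j := hc
      refine ⟨?_, ?_, hkey c hc'⟩
      · show (n:ℂ) * c ^ (n - 1) * (1 + X n c j / n) ^ n ≠ 0
        have h1 : (n:ℂ) ≠ 0 := by exact_mod_cast (by omega : n ≠ 0)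
        have h2 := (hG.nz c hc').1
        have h3 : A n c j ≠ 0 := hAn c hc' j (Nat.lt_succ_self j)
        exact mul_ne_zero (mul_ne_zero h1 (pow_ne_zero _ h2)) (pow_ne_zero _ h3)
      · exact (hD n hn2 c (j + 1) (hG.nz c hc').1 (hAn c hc')).1)
  refine hvol.trans ?_
  unfold dd
  rw [Complex.volume_closedBall]
  have e1 : ENNReal.ofReal (1 / (200 * ‖L n c₀ j‖)) ^ 2 * (NNReal.pi : ENNReal) =
      ENNReal.ofReal ((1 / (200 * l)) ^ 2 * Real.pi) := by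
    rw [ENNReal.ofReal_mul (by positivity), ENNReal.ofReal_pow (by positivity)]
    congr 1
    rw [← NNReal.coe_real_pi, ENNReal.ofReal_coe_nnreal]
  rw [e1, ← ENNReal.ofReal_mul (by positivity)]
  apply ENNReal.ofReal_le_ofReal
  have hpi := Real.pi_gt_three
  have hpos : 0 < s * l := by positivity
  have hba : 0 ≤ β - α := by linarith
  calc 4 * (1 / (100 * l)) * (β - α) / ‖L n c₀ (j + 1)‖
      ≤ 4 * (1 / (100 * l)) * (β - α) / (88 / 100 * (s * l)) := by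
        gcongr
    _ = (β - α) / (s * l ^ 2) * (1 / 22) := by
        field_simp
        ring
    _ ≤ (β - α) / (s * l ^ 2) * (1100 / 40000 * Real.pi) := by
        gcongr
        linarith
    _ = 1100 * (β - α) / s * ((1 / (200 * l)) ^ 2 * Real.pi) := by
        field_simp
        ring

end Pool.Agent.W816.MB
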